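import Pool.Agent.Helper949.CC12

/-!
The number `F n` of possible numbers of complete subgraphs of a graph on `n` vertices satisfies
`F n = 2 ^ (n - (1/2 + o(1)) * (log n) ^ 2 / log (log n))`, logarithms to base two.
-/

namespace Pool.Agent.Results.MP_b34c1f_co.SecondOrder

/-- The number of complete subgraphs of `G`: nonempty sets of pairwise adjacent vertices. -/
noncomputable def completeSubgraphCount {V : Type} (G : SimpleGraph V) : ℕ :=
  Set.ncard {S : Finset V | S.Nonempty ∧ G.IsClique (S : Set V)}

/-- The set of values of `completeSubgraphCount` over all graphs with vertex set `Fin n`. -/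
def possibleCounts (n : ℕ) : Set ℕ :=
  {m | ∃ G : SimpleGraph (Fin n), completeSubgraphCount G = m}

/-- The number of possible values. -/
noncomputable def F (n : ℕ) : ℕ := (possibleCounts n).ncard

/-- Sanity check: the set of values is finite. -/
lemma possibleCounts_finite (n : ℕ) : (possibleCounts n).Finite :=
  Pool.Agent.Helper949.CC.possibleCounts_finite n

/-- Sanity check: the complete graph has all nonempty vertex sets as complete subgraphs. -/
lemma completeSubgraphCount_top (n : ℕ) :
    completeSubgraphCount (⊤ : SimpleGraph (Fin n)) = 2 ^ n - 1 := by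
  have h := Pool.Agent.Helper949.CC.completeCount_add_one (⊤ : SimpleGraph (Fin n))
  have h2 : Pool.Agent.Helper949.CC.allCount (⊤ : SimpleGraph (Fin n)) = 2 ^ n := by
    classical
    unfold Pool.Agent.Helper949.CC.allCount
    have e : (2 : ℕ) ^ n = (Finset.univ : Finset (Finset (Fin n))).card := by simp
    rw [e]
    apply congrArg Finset.card
    ext S
    simp only [Finset.mem_filter, Finset.mem_univ, true_and, iff_true]
    intro x _ y _ hxy
    exact hxy
  have h3 : completeSubgraphCount (⊤ : SimpleGraph (Fin n)) =
      Pool.Agent.Helper949.CC.completeCount (⊤ : SimpleGraph (Fin n)) := rfl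
  omega

/-- Main result: `(n - log F(n)) * log log n / (log n)^2` tends to `1/2` (base two). -/
theorem result : Filter.Tendsto
    (fun n : ℕ => ((n : ℝ) - Real.logb 2 (F n)) * Real.logb 2 (Real.logb 2 n) /
      (Real.logb 2 n) ^ 2)
    Filter.atTop (nhds (1 / 2)) :=
  Pool.Agent.Helper949.CC.main

end Pool.Agent.Results.MP_b34c1f_co.SecondOrder
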