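import Pool.Agent.Helper949.CC15

/-!
The set `S_n` of possible numbers of complete subgraphs of a graph on `n` vertices: it contains
every integer from `n` up to `2 ^ (n - (1/2 + o(1)) T)` and has at most
`2 ^ (n - (1/2 - o(1)) T)` elements in all, where `T = (log n) ^ 2 / log (log n)`,
logarithms to base two.
-/

namespace Pool.Agent.Results.MP_b34c1f_co.Threshold

/-- The number of complete subgraphs of `G`: nonempty sets of pairwise adjacent vertices. -/
noncomputable def completeSubgraphCount {V : Type} (G : SimpleGraph V) : ℕ :=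
  Set.ncard {S : Finset V | S.Nonempty ∧ G.IsClique (S : Set V)}

/-- The set of values of `completeSubgraphCount` over all graphs with vertex set `Fin n`. -/
def possibleCounts (n : ℕ) : Set ℕ :=
  {m | ∃ G : SimpleGraph (Fin n), completeSubgraphCount G = m}

/-- The second-order scale `(log n) ^ 2 / log (log n)`, logarithms to base two. -/
noncomputable def scale (n : ℕ) : ℝ := (Real.logb 2 n) ^ 2 / Real.logb 2 (Real.logb 2 n)

/-- Sanity check: the set of values is finite, so its cardinality is meaningful. -/
lemma possibleCounts_finite (n : ℕ) : (possibleCounts n).Finite :=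
  Pool.Agent.Helper949.CC.possibleCounts_finite n

/-- Main result: for every `ε > 0` and all large `n`, every integer from `n` up to
`2 ^ (n - (1/2 + ε) T)` is a possible count, and the number of possible counts is at most
`2 ^ (n - (1/2 - ε) T)`. -/
theorem result : ∀ ε : ℝ, 0 < ε → ∀ᶠ n : ℕ in Filter.atTop,
    (∀ m : ℕ, n ≤ m → (m : ℝ) ≤ (2 : ℝ) ^ ((n : ℝ) - (1 / 2 + ε) * scale n) →
      m ∈ possibleCounts n) ∧
    ((possibleCounts n).ncard : ℝ) ≤ (2 : ℝ) ^ ((n : ℝ) - (1 / 2 - ε) * scale n) :=
  Pool.Agent.Helper949.CC.threshold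

end Pool.Agent.Results.MP_b34c1f_co.Threshold
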